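import Mathlib

/-!
# Positive refinement expansive homeomorphisms exist only on finite `T₁` spaces
-/

set_option autoImplicit false

open Set

namespace Pool.Agent.Results.MP_b50e26_gt.FiniteSpace

universe u

/-- `f` is positive refinement expansive: there is a finite open cover `U` of `X` such that for
every open cover `V` of `X` and every sequence `k` of indices there is `N` such that
`⋂_{j ≤ N} f^{-j}(U (k j))` is contained in a member of `V`. -/
def PosRefinementExpansive {X : Type u} [TopologicalSpace X] (f : X ≃ₜ X) : Prop :=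
  ∃ (n : ℕ) (U : Fin n → Set X), (∀ i, IsOpen (U i)) ∧ ⋃ i, U i = univ ∧
    ∀ V : Set (Set X), (∀ W ∈ V, IsOpen W) → ⋃₀ V = univ → ∀ k : ℕ → Fin n,
      ∃ N : ℕ, ∃ W ∈ V, (⋂ j : ℕ, ⋂ _ : j ≤ N, f^[j] ⁻¹' U (k j)) ⊆ W

/-- a uniform bound, by compactness of the space of index sequences -/
lemma uniform {X : Type u} [TopologicalSpace X] (f : X ≃ₜ X) {n : ℕ} {U : Fin n → Set X}
    {V : Set (Set X)}
    (h : ∀ k : ℕ → Fin n, ∃ N : ℕ, ∃ W ∈ V, (⋂ j : ℕ, ⋂ _ : j ≤ N, f^[j] ⁻¹' U (k j)) ⊆ W) :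
    ∃ N : ℕ, ∀ k : ℕ → Fin n, ∃ W ∈ V, (⋂ j : ℕ, ⋂ _ : j ≤ N, f^[j] ⁻¹' U (k j)) ⊆ W := by
  choose N W hW hsub using h
  let O : (ℕ → Fin n) → Set (ℕ → Fin n) := fun k => {k' | ∀ j ∈ Iic (N k), k' j = k j}
  have hO : ∀ k ∈ (univ : Set (ℕ → Fin n)), O k ∈ nhds k := by
    intro k _
    have h1 : O k = ⋂ j ∈ Iic (N k), {k' : ℕ → Fin n | k' j = k j} := by
      ext k'
      simp [O]
    rw [h1]
    refine (Filter.biInter_mem (finite_Iic _)).2 fun j _ => ?_
    have h2 : IsOpen {k' : ℕ → Fin n | k' j = k j} :=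
      (isOpen_discrete ({k j} : Set (Fin n))).preimage (continuous_apply (A := fun _ => Fin n) j)
    exact h2.mem_nhds rfl
  obtain ⟨t, -, ht⟩ := isCompact_univ.elim_nhds_subcover O (fun k hk => hO k hk)
  refine ⟨t.sup N, fun k' => ?_⟩
  obtain ⟨k, hk, hkk⟩ := mem_iUnion₂.1 (ht (mem_univ k'))
  refine ⟨W k, hW k, fun x hx => hsub k ?_⟩
  simp only [mem_iInter] at hx ⊢
  intro j hj
  have h2 := hx j (hj.trans (Finset.le_sup hk))
  rwa [hkk j hj] at h2

/-- Every `T₁` space which admits a positive refinement expansive homeomorphism is finite. -/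
theorem result (X : Type u) [TopologicalSpace X] [T1Space X] (f : X ≃ₜ X)
    (hf : PosRefinementExpansive f) : Finite X := by
  classical
  obtain ⟨n, U, hU, hcov, hexp⟩ := hf
  -- apply the hypothesis to the cover by the images of the sets `U i`
  obtain ⟨N, hN⟩ := uniform f (hexp {W | ∃ i, W = f '' U i}
    (by rintro W ⟨i, rfl⟩; exact f.isOpenMap _ (hU i))
    (by
      rw [eq_univ_iff_forall]
      intro x
      have h1 : f.symm x ∈ ⋃ i, U i := by rw [hcov]; trivial
      obtain ⟨i, hi⟩ := mem_iUnion.1 h1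
      exact ⟨f '' U i, ⟨i, rfl⟩, f.symm x, hi, f.apply_symm_apply x⟩))
  let close : X → X → Prop := fun x y => ∀ j ≤ N, ∃ i, f^[j] x ∈ U i ∧ f^[j] y ∈ U i
  -- closeness passes backward
  have hback : ∀ x y, close (f x) (f y) → close x y := by
    intro x y hxy
    have hne : Nonempty (Fin n) := by
      have h1 : x ∈ ⋃ i, U i := by rw [hcov]; trivial
      obtain ⟨i, -⟩ := mem_iUnion.1 h1
      exact ⟨i⟩
    choose! k hk using hxy
    obtain ⟨W, ⟨i, rfl⟩, hW⟩ := hN k
    have hx : f x ∈ f '' U i := hW (by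
      simp only [mem_iInter]
      exact fun j hj => (hk j hj).1)
    have hy : f y ∈ f '' U i := hW (by
      simp only [mem_iInter]
      exact fun j hj => (hk j hj).2)
    obtain ⟨x', hx', hxx⟩ := hx
    obtain ⟨y', hy', hyy⟩ := hy
    rw [f.injective hxx] at hx'
    rw [f.injective hyy] at hy'
    intro j hj
    rcases j with _ | j
    · exact ⟨i, hx', hy'⟩
    · exact ⟨k j, (hk j (by omega)).1, (hk j (by omega)).2⟩
  have hbackn : ∀ (m : ℕ) x y, close (f^[m] x) (f^[m] y) → close x y := by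
    intro m
    induction m with
    | zero => exact fun x y h => h
    | succ m ih =>
      intro x y h
      rw [Function.iterate_succ_apply, Function.iterate_succ_apply] at h
      exact hback x y (ih _ _ h)
  -- the index of a point
  have hidx : ∀ x : X, ∃ v : Fin (N + 1) → Fin n, ∀ j : Fin (N + 1), f^[j] x ∈ U (v j) := by
    intro x
    have h1 : ∀ j : Fin (N + 1), ∃ i, f^[j] x ∈ U i := by
      intro j
      have h2 : f^[j] x ∈ ⋃ i, U i := by rw [hcov]; trivial
      exact mem_iUnion.1 h2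
    choose v hv using h1
    exact ⟨v, hv⟩
  choose idx hidx using hidx
  have hclose : ∀ x y, idx x = idx y → close x y := by
    intro x y hxy j hj
    refine ⟨idx x ⟨j, by omega⟩, hidx x ⟨j, by omega⟩, ?_⟩
    rw [hxy]
    exact hidx y ⟨j, by omega⟩
  by_contra hinf
  rw [not_finite_iff_infinite] at hinf
  let e : ℕ ↪ X := Infinite.natEmbedding X
  let m := Fintype.card (Fin (N + 1) → Fin n)
  have hpair : ∀ t : ℕ, ∃ p : Fin (m + 1) × Fin (m + 1), p.1 ≠ p.2 ∧
      close (f^[t] (e p.1)) (f^[t] (e p.2)) := by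
    intro t
    obtain ⟨a, b, hab, h⟩ := Fintype.exists_ne_map_eq_of_card_lt
      (fun s : Fin (m + 1) => idx (f^[t] (e s))) (by simp [m])
    exact ⟨(a, b), hab, hclose _ _ h⟩
  choose p hp using hpair
  obtain ⟨q, hq⟩ := Finite.exists_infinite_fiber p
  have hq' : (p ⁻¹' {q}).Infinite := infinite_coe_iff.1 hq
  have hall : ∀ t : ℕ, close (f^[t] (e q.1)) (f^[t] (e q.2)) := by
    intro t
    obtain ⟨t', ht', htt⟩ := hq'.exists_gt t
    have h1 := (hp t').2
    have h2 : p t' = q := ht'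
    rw [h2] at h1
    obtain ⟨s, rfl⟩ := Nat.exists_eq_add_of_lt htt
    apply hbackn (s + 1)
    rw [← Function.iterate_add_apply, ← Function.iterate_add_apply]
    have h3 : s + 1 + t = t + s + 1 := by ring
    rw [h3]
    exact h1
  have hne : e q.1 ≠ e q.2 := by
    obtain ⟨t, ht⟩ := hq'.nonempty
    have h1 := (hp t).1
    have h2 : p t = q := ht
    rw [h2] at h1
    intro h
    exact h1 (Fin.ext (e.injective h))
  have h0 : ∀ t : ℕ, ∃ i, f^[t] (e q.1) ∈ U i ∧ f^[t] (e q.2) ∈ U i := fun t =>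
    hall t 0 (Nat.zero_le _)
  choose k hk using h0
  obtain ⟨M, W, hW, hsub⟩ := hexp {{e q.1}ᶜ, {e q.2}ᶜ}
    (by
      rintro W (rfl | rfl)
      · exact isOpen_compl_singleton
      · exact isOpen_compl_singleton)
    (by
      rw [eq_univ_iff_forall]
      intro x
      by_cases hx : x = e q.1
      · refine ⟨{e q.2}ᶜ, by simp, ?_⟩
        rw [hx]
        exact hne
      · exact ⟨{e q.1}ᶜ, by simp, hx⟩) k
  have h1 : e q.1 ∈ W := hsub (by
    simp only [mem_iInter]
    exact fun j _ => (hk j).1)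
  have h2 : e q.2 ∈ W := hsub (by
    simp only [mem_iInter]
    exact fun j _ => (hk j).2)
  rcases hW with rfl | rfl
  · exact h1 rfl
  · exact h2 rfl

end Pool.Agent.Results.MP_b50e26_gt.FiniteSpace
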